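import Pool.Agent.AT12.Stmts1
import Pool.Agent.Helper6_AT8.CMB

/-!
# Squad AT12, row CMS: integral vectors with Gram matrix `1 + n J`, the extremal case

In the extremal case the inequality of `Helper6_AT8/CMB.lean` is an equality for every column, so a
column is `± δ_i` or `± (1, .., 1)`.
-/

open scoped BigOperators

namespace Pool.Agent.PP.T12.H77

/-- the case of equality in `T8.H6.key` -/
theorem key_eq {ι : Type} [Fintype ι] (x : ι → ℤ) (hx : ∃ i, x i ≠ 0)
    (he : (Fintype.card ι + 1) * ∑ i, x i * x i - (∑ i, x i) ^ 2 = (Fintype.card ι : ℤ)) :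
    ∃ ε : ℤ, (ε = 1 ∨ ε = -1) ∧
      ((∃ i₀, x i₀ = ε ∧ ∀ i, i ≠ i₀ → x i = 0) ∨ ∀ i, x i = ε) := by
  classical
  set A : Finset ι := Finset.univ.filter (fun i => x i ≠ 0) with hA
  have h1 : ∑ i, x i = ∑ i ∈ A, x i := (Finset.sum_filter_ne_zero _).symm
  have h2 : ∑ i, x i * x i = ∑ i ∈ A, x i ^ 2 := by
    rw [hA, Finset.sum_filter]
    refine Finset.sum_congr rfl fun i _ => ?_
    split_ifs with h
    · rw [sq]
    · have h0 : x i = 0 := not_not.1 h
      rw [h0, mul_zero]
  have h3 : (∑ i ∈ A, x i) ^ 2 ≤ A.card * ∑ i ∈ A, x i ^ 2 := sq_sum_le_card_mul_sum_sq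
  have hsq : ∀ i ∈ A, 1 ≤ x i ^ 2 := by
    intro i hi
    have h0 : x i ≠ 0 := (Finset.mem_filter.1 hi).2
    have : 0 < x i ^ 2 := by positivity
    linarith
  have h4 : (A.card : ℤ) ≤ ∑ i ∈ A, x i ^ 2 := by
    rw [Finset.card_eq_sum_ones]
    push_cast
    exact Finset.sum_le_sum hsq
  have h5 : 1 ≤ A.card := by
    obtain ⟨i, hi⟩ := hx
    exact Finset.card_pos.2 ⟨i, by simp [hA, hi]⟩
  have h6 : A.card ≤ Fintype.card ι := Finset.card_le_univ A
  have h5' : (1 : ℤ) ≤ A.card := by exact_mod_cast h5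
  have h6' : (A.card : ℤ) ≤ Fintype.card ι := by exact_mod_cast h6
  rw [h1, h2] at he
  set Q : ℤ := ∑ i ∈ A, x i ^ 2 with hQ
  set S : ℤ := ∑ i ∈ A, x i with hS
  set a : ℤ := (A.card : ℤ) with ha
  set m : ℤ := (Fintype.card ι : ℤ) with hm
  have p1 : 0 ≤ (a - 1) * (m - a) := mul_nonneg (sub_nonneg.2 h5') (sub_nonneg.2 h6')
  have p2 : 0 ≤ (Q - a) * (m + 1 - a) :=
    mul_nonneg (sub_nonneg.2 h4) (by linarith)
  have e1 : (a - 1) * (m - a) = 0 := by nlinarith
  have e2 : (Q - a) * (m + 1 - a) = 0 := by nlinarith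
  have e3 : Q = a := by
    rcases mul_eq_zero.1 e2 with h | h <;> linarith
  have e4 : S ^ 2 = a ^ 2 := by
    rw [e3] at h3
    nlinarith
  -- the nonzero entries are `1` or `-1`
  have h7 : ∀ i ∈ A, x i ^ 2 = 1 := by
    have h8 : ∑ i ∈ A, (x i ^ 2 - 1) = 0 := by
      rw [Finset.sum_sub_distrib, ← hQ, e3, ha, Finset.sum_const, nsmul_eq_mul, mul_one, sub_self]
    intro i hi
    have h9 := (Finset.sum_eq_zero_iff_of_nonneg (fun i hi => by linarith [hsq i hi])).1 h8 i hi
    linarith
  have h8 : ∃ ε : ℤ, (ε = 1 ∨ ε = -1) ∧ ∀ i ∈ A, x i = ε := by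
    rcases sq_eq_sq_iff_eq_or_eq_neg.1 e4 with h | h
    · refine ⟨1, Or.inl rfl, fun i hi => ?_⟩
      have h10 : ∑ i ∈ A, (1 - x i) = 0 := by
        rw [Finset.sum_sub_distrib, ← hS, h, ha, Finset.sum_const, nsmul_eq_mul, mul_one, sub_self]
      have h9 := (Finset.sum_eq_zero_iff_of_nonneg (fun i hi => by
        nlinarith [h7 i hi])).1 h10 i hi
      linarith
    · refine ⟨-1, Or.inr rfl, fun i hi => ?_⟩
      have h10 : ∑ i ∈ A, (1 + x i) = 0 := by
        rw [Finset.sum_add_distrib, ← hS, h, ha, Finset.sum_const, nsmul_eq_mul, mul_one,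
          add_neg_cancel]
      have h9 := (Finset.sum_eq_zero_iff_of_nonneg (fun i hi => by
        nlinarith [h7 i hi])).1 h10 i hi
      linarith
  obtain ⟨ε, hε, h9⟩ := h8
  refine ⟨ε, hε, ?_⟩
  have hout : ∀ i, i ∉ A → x i = 0 := by
    intro i hi
    by_contra h
    exact hi (Finset.mem_filter.2 ⟨Finset.mem_univ i, h⟩)
  rcases mul_eq_zero.1 e1 with h | h
  · left
    have h10 : A.card = 1 := by
      have : (A.card : ℤ) = 1 := by linarith
      exact_mod_cast this
    obtain ⟨i₀, hi₀⟩ := Finset.card_eq_one.1 h10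
    refine ⟨i₀, h9 i₀ (by rw [hi₀]; exact Finset.mem_singleton_self i₀), fun i hi => hout i ?_⟩
    rw [hi₀, Finset.mem_singleton]
    exact hi
  · right
    have h10 : A.card = Fintype.card ι := by
      have : (A.card : ℤ) = Fintype.card ι := by linarith
      exact_mod_cast this
    intro i
    exact h9 i (by rw [(Finset.card_eq_iff_eq_univ A).1 h10]; exact Finset.mem_univ i)

theorem cms : CmsStmt := by
  intro ι κ _ _ _ c n h1 h2 h3 hι hκ
  classical
  have hne : Nonempty ι := Fintype.card_pos_iff.1 (by omega)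
  -- the columns
  have hcol : ∀ k, (Fintype.card ι + 1) * ∑ i, c i k * c i k - (∑ i, c i k) ^ 2 =
      (Fintype.card ι : ℤ) := by
    have h5 : ∑ k, ∑ i, c i k * c i k = (Fintype.card ι : ℤ) * (1 + n) := by
      rw [Finset.sum_comm, Finset.sum_congr rfl (fun i _ => h1 i)]
      simp
    have h6 : ∑ k, (∑ i, c i k) ^ 2 =
        (Fintype.card ι : ℤ) + n * (Fintype.card ι : ℤ) ^ 2 := by
      have h7 : ∀ k, (∑ i, c i k) ^ 2 = ∑ i, ∑ j, c i k * c j k := by
        intro k
        rw [sq, Finset.sum_mul_sum]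
      rw [Finset.sum_congr rfl (fun k _ => h7 k), Finset.sum_comm]
      have h8 : ∀ i, ∑ k, ∑ j, c i k * c j k = 1 + n * (Fintype.card ι : ℤ) := by
        intro i
        rw [Finset.sum_comm]
        have h9 : ∀ j, ∑ k, c i k * c j k = (if i = j then 1 else 0) + n := by
          intro j
          split_ifs with h
          · rw [← h]
            exact h1 i
          · rw [zero_add]
            exact h2 i j h
        rw [Finset.sum_congr rfl (fun j _ => h9 j), Finset.sum_add_distrib]
        simp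
        ring
      rw [Finset.sum_congr rfl (fun i _ => h8 i)]
      simp
      ring
    have h10 : ∑ k, (((Fintype.card ι + 1) * ∑ i, c i k * c i k - (∑ i, c i k) ^ 2) -
        (Fintype.card ι : ℤ)) = 0 := by
      rw [Finset.sum_sub_distrib, Finset.sum_sub_distrib, ← Finset.mul_sum, h5, h6,
        Finset.sum_const, Finset.card_univ, nsmul_eq_mul, hκ]
      push_cast
      ring
    intro k
    have h11 := (Finset.sum_eq_zero_iff_of_nonneg (fun k _ => by
      have := T8.H6.key (fun i => c i k) (h3 k)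
      linarith)).1 h10 k (Finset.mem_univ k)
    linarith
  have hk := fun k => key_eq (fun i => c i k) (h3 k) (hcol k)
  choose ε hε hc using hk
  set T : Finset κ := Finset.univ.filter (fun k => ∀ i, c i k = ε k) with hT
  have hmT : ∀ k, k ∈ T ↔ ∀ i, c i k = ε k := fun k => by simp [hT]
  have hεε : ∀ k, ε k * ε k = 1 := fun k => by
    rcases hε k with h | h <;> rw [h] <;> norm_num
  have hc0 : ∀ k, ∃ i₀, k ∉ T → c i₀ k = ε k ∧ ∀ i, i ≠ i₀ → c i k = 0 := by
    intro k
    by_cases hkT : k ∈ T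
    · exact ⟨hne.some, fun h => absurd hkT h⟩
    · rcases hc k with ⟨i₀, h⟩ | h
      · exact ⟨i₀, fun _ => h⟩
      · exact absurd ((hmT k).2 h) hkT
  choose i₀ hi₀ using hc0
  -- the number of the columns in `T`
  have hTn : (T.card : ℤ) = n := by
    obtain ⟨i, j, hij⟩ := Fintype.exists_pair_of_one_lt_card (α := ι) (by omega)
    rw [← h2 i j hij]
    have h4 : ∀ k, c i k * c j k = if k ∈ T then 1 else 0 := by
      intro k
      by_cases hkT : k ∈ T
      · rw [if_pos hkT, (hmT k).1 hkT i, (hmT k).1 hkT j, hεε]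
      · rw [if_neg hkT]
        by_cases hi : i = i₀ k
        · rw [(hi₀ k hkT).2 j (fun h => hij (hi.trans h.symm)), mul_zero]
        · rw [(hi₀ k hkT).2 i hi, zero_mul]
    rw [Finset.sum_congr rfl fun k _ => h4 k, ← Finset.sum_filter, Finset.filter_mem_eq_inter,
      Finset.univ_inter, Finset.sum_const, nsmul_eq_mul, mul_one]
  have hone : ∀ i, ∃ k, (Finset.univ.filter fun k => k ∉ T ∧ i₀ k = i) = {k} := by
    intro i
    rw [← Finset.card_eq_one]
    have h4 : ∀ k, c i k * c i k = (if k ∈ T then 1 else 0) +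
        if k ∉ T ∧ i₀ k = i then 1 else 0 := by
      intro k
      by_cases hkT : k ∈ T
      · rw [if_pos hkT, (hmT k).1 hkT i, hεε, if_neg (fun h => h.1 hkT), add_zero]
      · rw [if_neg hkT, zero_add]
        by_cases hi : i₀ k = i
        · rw [if_pos ⟨hkT, hi⟩, ← hi, (hi₀ k hkT).1, hεε]
        · rw [if_neg (fun h => hi h.2), (hi₀ k hkT).2 i (fun h => hi h.symm), zero_mul]
    have h5 := h1 i
    rw [Finset.sum_congr rfl fun k _ => h4 k, Finset.sum_add_distrib, ← Finset.sum_filter,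
      Finset.filter_mem_eq_inter, Finset.univ_inter, Finset.sum_const, nsmul_eq_mul, mul_one,
      hTn, ← Finset.sum_filter, Finset.sum_const, nsmul_eq_mul, mul_one] at h5
    have h6 : ((Finset.univ.filter fun k => k ∉ T ∧ i₀ k = i).card : ℤ) = 1 := by linarith
    exact_mod_cast h6
  choose r hr using hone
  have hr1 : ∀ i, r i ∉ T ∧ i₀ (r i) = i := by
    intro i
    have h : r i ∈ (Finset.univ.filter fun k => k ∉ T ∧ i₀ k = i) := by
      rw [hr i]
      exact Finset.mem_singleton_self _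
    exact (Finset.mem_filter.1 h).2
  have hr2 : ∀ k, k ∉ T → k = r (i₀ k) := by
    intro k hkT
    have h : k ∈ (Finset.univ.filter fun k' => k' ∉ T ∧ i₀ k' = i₀ k) :=
      Finset.mem_filter.2 ⟨Finset.mem_univ k, hkT, rfl⟩
    rw [hr (i₀ k)] at h
    exact Finset.mem_singleton.1 h
  refine ⟨fun k => if k ∈ T then ε k else 0, fun i => - ε (r i), r, ?_, ?_, ?_, ?_, ?_⟩
  · intro i j hij
    rw [← (hr1 i).2, ← (hr1 j).2, hij]
  · intro i
    show - ε (r i) = 1 ∨ - ε (r i) = -1
    rcases hε (r i) with h | h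
    · right
      rw [h]
    · left
      rw [h, neg_neg]
  · intro i
    exact if_neg (hr1 i).1
  · intro k hkr
    have hkT : k ∈ T := by
      by_contra hkT
      exact hkr (i₀ k) (hr2 k hkT).symm
    show (if k ∈ T then ε k else 0) = 1 ∨ (if k ∈ T then ε k else 0) = -1
    rw [if_pos hkT]
    exact hε k
  · intro i k
    show c i k = (if k ∈ T then ε k else 0) - if k = r i then - ε (r i) else 0
    by_cases hkT : k ∈ T
    · have h : k ≠ r i := fun h => (hr1 i).1 (h ▸ hkT)
      rw [if_pos hkT, if_neg h, sub_zero, (hmT k).1 hkT i]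
    · rw [if_neg hkT]
      by_cases hi : k = r i
      · rw [if_pos hi, zero_sub, neg_neg]
        have h4 : i₀ k = i := by rw [hi]; exact (hr1 i).2
        have h5 := (hi₀ k hkT).1
        rw [h4] at h5
        rw [h5, hi]
      · rw [if_neg hi, sub_zero]
        refine (hi₀ k hkT).2 i fun h => hi ?_
        rw [h]
        exact hr2 k hkT

end Pool.Agent.PP.T12.H77
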